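import Mathlib

/-!
# Capped ordered graphs have biclique covers of size `O(n log² n)`
-/

namespace Pool.Agent.Results.MP_7bf775_co.CappedCovers

open Finset

/-- An ordered graph on `Fin n` (with its usual order) is *capped* if for all vertices
`i < j < k < l` with `ik` and `jl` edges, `il` is an edge too. -/
def Capped {n : ℕ} (G : SimpleGraph (Fin n)) : Prop :=
  ∀ i j k l : Fin n, i < j → j < k → k < l → G.Adj i k → G.Adj j l → G.Adj i l

/-- `(A, B)` is a biclique of `G`: both sides are nonempty, they are disjoint and all pairs between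
them are edges. -/
def IsBiclique {n : ℕ} (G : SimpleGraph (Fin n)) (A B : Finset (Fin n)) : Prop :=
  A.Nonempty ∧ B.Nonempty ∧ Disjoint A B ∧ ∀ a ∈ A, ∀ b ∈ B, G.Adj a b

/-- The pairs `(A t, B t)`, `t : Fin m`, form a biclique cover of `G`. -/
def IsBicliqueCover {n : ℕ} (G : SimpleGraph (Fin n)) {m : ℕ} (A B : Fin m → Finset (Fin n)) :
    Prop :=
  (∀ t, IsBiclique G (A t) (B t)) ∧
    ∀ x y, G.Adj x y → ∃ t, (x ∈ A t ∧ y ∈ B t) ∨ (y ∈ A t ∧ x ∈ B t)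

/-! ### Dyadic blocks -/

theorem sep : ∀ (s a b : ℕ), a < b → a / 2 ^ s = b / 2 ^ s →
    ∃ t, t < s ∧ b / 2 ^ t = a / 2 ^ t + 1 ∧ (a / 2 ^ t) % 2 = 0 := by
  intro s
  induction s with
  | zero => intro a b h h'; simp at h'; omega
  | succ s ih =>
    intro a b h h'
    by_cases h1 : a / 2 ^ s = b / 2 ^ s
    · obtain ⟨t, ht, h2⟩ := ih a b h h1
      exact ⟨t, by omega, h2⟩
    · refine ⟨s, by omega, ?_⟩
      have h3 : a / 2 ^ s ≤ b / 2 ^ s := Nat.div_le_div_right h.le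
      rw [pow_succ, ← Nat.div_div_eq_div_mul, ← Nat.div_div_eq_div_mul] at h'
      omega

theorem blk_le {s t a b : ℕ} (h : s ≤ t) (hab : a / 2 ^ s ≤ b / 2 ^ s) :
    a / 2 ^ t ≤ b / 2 ^ t := by
  obtain ⟨d, rfl⟩ := Nat.exists_eq_add_of_le h
  rw [pow_add, ← Nat.div_div_eq_div_mul, ← Nat.div_div_eq_div_mul]
  exact Nat.div_le_div_right hab

theorem blk_up {s t a b : ℕ} (h : s ≤ t) (hab : a / 2 ^ s = b / 2 ^ s) :
    a / 2 ^ t = b / 2 ^ t :=
  le_antisymm (blk_le h hab.le) (blk_le h hab.ge)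

theorem blk_lt {s t a b : ℕ} (h : s ≤ t) (hab : a / 2 ^ t < b / 2 ^ t) :
    a / 2 ^ s < b / 2 ^ s := by
  by_contra hc
  have := blk_le h (not_lt.1 hc)
  omega

theorem lt_of_blk {s a b : ℕ} (hab : a / 2 ^ s < b / 2 ^ s) : a < b := by
  by_contra hc
  have : b / 2 ^ s ≤ a / 2 ^ s := Nat.div_le_div_right (not_lt.1 hc)
  omega

theorem par {p a b : ℕ} (h1 : b / 2 ^ p = a / 2 ^ p + 1) (h2 : (a / 2 ^ p) % 2 = 0) :
    a / 2 ^ (p + 1) = b / 2 ^ (p + 1) := by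
  rw [pow_succ, ← Nat.div_div_eq_div_mul, ← Nat.div_div_eq_div_mul]
  omega

/-! ### The families -/

section
variable {n : ℕ} (G : SimpleGraph (Fin n))

/-- `k` is in the right sibling of the level-`t` block of `i`, and `ik` is an edge -/
def Cand (t : ℕ) (i k : Fin n) : Prop :=
  k.val / 2 ^ t = i.val / 2 ^ t + 1 ∧ (i.val / 2 ^ t) % 2 = 0 ∧ G.Adj i k

def IsM (t : ℕ) (i k : Fin n) : Prop := Cand G t i k ∧ ∀ k', Cand G t i k' → k ≤ k'

def IsF (t : ℕ) (l j : Fin n) : Prop := Cand G t j l ∧ ∀ j', Cand G t j' l → j' ≤ j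

def C1 (t p : ℕ) (i : Fin n) : Prop :=
  ∃ k : Fin n, G.Adj i k ∧ i.val / 2 ^ (p + 1) < k.val / 2 ^ (p + 1) ∧
    k.val / 2 ^ t = i.val / 2 ^ t

def C2 (t v : ℕ) (l : Fin n) : Prop :=
  ∃ j : Fin n, G.Adj j l ∧ j.val / 2 ^ (v + 1) < l.val / 2 ^ (v + 1) ∧
    j.val / 2 ^ t = l.val / 2 ^ t

variable {G}

theorem IsM.uniq {t : ℕ} {i k k' : Fin n} (h : IsM G t i k) (h' : IsM G t i k') : k = k' :=
  le_antisymm (h.2 _ h'.1) (h'.2 _ h.1)

theorem IsF.uniq {t : ℕ} {i k k' : Fin n} (h : IsF G t i k) (h' : IsF G t i k') : k = k' :=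
  le_antisymm (h'.2 _ h.1) (h.2 _ h'.1)

theorem exM {t : ℕ} {i l : Fin n} (h : Cand G t i l) : ∃ k, IsM G t i k := by
  classical
  obtain ⟨k, hk, hmin⟩ := Finset.exists_min_image (univ.filter (fun k => Cand G t i k)) id
    ⟨l, by simpa using h⟩
  refine ⟨k, by simpa using hk, fun k' hk' => hmin k' (by simpa using hk')⟩

theorem exF {t : ℕ} {i l : Fin n} (h : Cand G t i l) : ∃ k, IsF G t l k := by
  classical
  obtain ⟨k, hk, hmin⟩ := Finset.exists_max_image (univ.filter (fun k => Cand G t k l)) id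
    ⟨i, by simpa using h⟩
  refine ⟨k, by simpa using hk, fun k' hk' => hmin k' (by simpa using hk')⟩

/-- a family of (possibly empty) bicliques covering the pairs in `P`, of total size at most `N` -/
def HasFam (G : SimpleGraph (Fin n)) (P : Fin n → Fin n → Prop) (N : ℕ) : Prop :=
  ∃ (ι : Type) (_ : Fintype ι) (A B : ι → Finset (Fin n)),
    (∀ t, ∀ a ∈ A t, ∀ b ∈ B t, G.Adj a b) ∧
    (∀ i l, P i l → ∃ t, i ∈ A t ∧ l ∈ B t) ∧
    ∑ t, ((A t).card + (B t).card) ≤ N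

theorem HasFam.union {P Q : Fin n → Fin n → Prop} {N M : ℕ} (h1 : HasFam G P N)
    (h2 : HasFam G Q M) : HasFam G (fun i l => P i l ∨ Q i l) (N + M) := by
  obtain ⟨ι, _, A, B, h1a, h1b, h1c⟩ := h1
  obtain ⟨κ, _, C, D, h2a, h2b, h2c⟩ := h2
  refine ⟨ι ⊕ κ, inferInstance, Sum.elim A C, Sum.elim B D, ?_, ?_, ?_⟩
  · rintro (t | t)
    · exact h1a t
    · exact h2a t
  · rintro i l (h | h)
    · obtain ⟨t, ht⟩ := h1b i l h
      exact ⟨Sum.inl t, ht⟩
    · obtain ⟨t, ht⟩ := h2b i l h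
      exact ⟨Sum.inr t, ht⟩
  · rw [Fintype.sum_sum_type]
    simpa using add_le_add h1c h2c

theorem sum_card_le {ι β : Type} [Fintype ι] [Fintype β] (P : ι → Fin n → Prop)
    (S : ι → Finset (Fin n)) (hS : ∀ x i, i ∈ S x → P x i)
    (f : ι → Fin n → β)
    (hf : ∀ x y i j, P x i → P y j → f x i = f y j → x = y ∧ i = j) :
    ∑ x, (S x).card ≤ Fintype.card β := by
  classical
  rw [← Finset.card_sigma, ← Finset.card_univ]
  refine Finset.card_le_card_of_injOn (fun z => f z.1 z.2) (fun _ _ => Finset.mem_coe.2 (Finset.mem_univ _)) ?_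
  rintro ⟨x, i⟩ h1 ⟨y, j⟩ h2 h
  simp only [Finset.coe_sigma, Set.mem_sigma_iff, Finset.mem_coe, Finset.mem_univ, true_and] at h1 h2
  obtain ⟨rfl, rfl⟩ := hf x y i j (hS _ _ h1) (hS _ _ h2) h
  rfl

/-- build a family from predicates -/
theorem mkFam {ι β γ : Type} [Fintype ι] [Fintype β] [Fintype γ]
    (PA PB : ι → Fin n → Prop) (P : Fin n → Fin n → Prop)
    (hadj : ∀ t a b, PA t a → PB t b → G.Adj a b)
    (hcov : ∀ i l, P i l → ∃ t, PA t i ∧ PB t l)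
    (f : ι → Fin n → β) (hf : ∀ x y i j, PA x i → PA y j → f x i = f y j → x = y ∧ i = j)
    (g : ι → Fin n → γ) (hg : ∀ x y i j, PB x i → PB y j → g x i = g y j → x = y ∧ i = j) :
    HasFam G P (Fintype.card β + Fintype.card γ) := by
  classical
  refine ⟨ι, inferInstance, fun t => univ.filter (PA t), fun t => univ.filter (PB t), ?_, ?_, ?_⟩
  · intro t a ha b hb
    exact hadj t a b (by simpa using ha) (by simpa using hb)
  · intro i l h
    obtain ⟨t, h1, h2⟩ := hcov i l h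
    exact ⟨t, by simpa using h1, by simpa using h2⟩
  · rw [Finset.sum_add_distrib]
    exact add_le_add (sum_card_le PA _ (fun x i h => by simpa using h) f hf)
      (sum_card_le PB _ (fun x i h => by simpa using h) g hg)

variable (K : ℕ)

theorem famS1 : HasFam G (fun i l => ∃ t : Fin K, IsM G t i l) (n * K + n * K) := by
  have := mkFam (G := G) (ι := Fin n × Fin K) (β := Fin n × Fin K) (γ := Fin n × Fin K)
    (PA := fun x a => a = x.1) (PB := fun x b => IsM G x.2 x.1 b)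
    (P := fun i l => ∃ t : Fin K, IsM G t i l)
    (by rintro ⟨i, t⟩ a b rfl h; exact h.1.2.2)
    (by rintro i l ⟨t, h⟩; exact ⟨(i, t), rfl, h⟩)
    (fun x _ => x) (by rintro x y i j rfl rfl rfl; exact ⟨rfl, rfl⟩)
    (fun x _ => x) (by rintro x y i j h1 h2 rfl; exact ⟨rfl, h1.uniq h2⟩)
  simpa using this

theorem famS2 : HasFam G (fun i l => ∃ t : Fin K, IsF G t l i) (n * K + n * K) := by
  have := mkFam (G := G) (ι := Fin n × Fin K) (β := Fin n × Fin K) (γ := Fin n × Fin K)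
    (PB := fun x a => a = x.1) (PA := fun x b => IsF G x.2 x.1 b)
    (P := fun i l => ∃ t : Fin K, IsF G t l i)
    (by rintro ⟨i, t⟩ a b h rfl; exact h.1.2.2)
    (by rintro i l ⟨t, h⟩; exact ⟨(l, t), h, rfl⟩)
    (fun x _ => x) (by rintro x y i j h1 h2 rfl; exact ⟨rfl, h1.uniq h2⟩)
    (fun x _ => x) (by rintro x y i j rfl rfl rfl; exact ⟨rfl, rfl⟩)
  simpa using this

theorem famB1 (hG : Capped G) : HasFam G (fun i l => ∃ t p : Fin K, p < t ∧
      C1 G t p i ∧ ∃ f, IsF G t l f ∧ f.val / 2 ^ p.val = i.val / 2 ^ p.val + 1 ∧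
        (i.val / 2 ^ p.val) % 2 = 0)
    (n * (K * K) + n * (K * K)) := by
  have := mkFam (G := G) (ι := Fin K × Fin K × Fin (n + 1)) (β := Fin n × Fin K × Fin K)
    (γ := Fin n × Fin K × Fin K)
    (PA := fun x a => x.2.1 < x.1 ∧ a.val / 2 ^ x.2.1.val + 1 = x.2.2.val ∧
      x.2.2.val % 2 = 1 ∧ C1 G x.1 x.2.1 a)
    (PB := fun x b => ∃ f, IsF G x.1 b f ∧ f.val / 2 ^ x.2.1.val = x.2.2.val)
    (P := fun i l => ∃ t p : Fin K, p < t ∧
      C1 G t p i ∧ ∃ f, IsF G t l f ∧ f.val / 2 ^ p.val = i.val / 2 ^ p.val + 1 ∧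
        (i.val / 2 ^ p.val) % 2 = 0)
    (by
      rintro ⟨t, p, q⟩ i l ⟨hpt, hq, hodd, k, hik, hk1, hk2⟩ ⟨f, hf, hfq⟩
      simp only at hpt hq hodd hk1 hk2 hf hfq
      have hpt' : p.val + 1 ≤ t.val := hpt
      have e1 : i.val / 2 ^ (p.val + 1) = f.val / 2 ^ (p.val + 1) :=
        par (by omega) (by omega)
      have e2 : i.val / 2 ^ t.val = f.val / 2 ^ t.val := blk_up hpt' e1
      have h1 : i < f := Fin.lt_def.2 (lt_of_blk (s := p.val) (by omega))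
      have h2 : f < k := Fin.lt_def.2 (lt_of_blk (s := p.val + 1) (by omega))
      have h3 : k < l := Fin.lt_def.2 (lt_of_blk (s := t.val) (by have := hf.1.1; omega))
      exact hG i f k l h1 h2 h3 hik hf.1.2.2)
    (by
      rintro i l ⟨t, p, hpt, hC, f, hf, hfq, hev⟩
      have hlt : i.val / 2 ^ p.val + 1 < n + 1 := by
        have : i.val / 2 ^ p.val ≤ i.val := Nat.div_le_self _ _
        have := i.isLt
        omega
      exact ⟨(t, p, ⟨i.val / 2 ^ p.val + 1, hlt⟩), ⟨hpt, rfl, by simp only; omega, hC⟩,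
        f, hf, hfq⟩)
    (fun x i => (i, x.1, x.2.1))
    (by
      rintro ⟨t, p, q⟩ ⟨t', p', q'⟩ i j ⟨_, h1, _, _⟩ ⟨_, h2, _, _⟩ h
      simp only [Prod.mk.injEq] at h
      obtain ⟨rfl, rfl, rfl⟩ := h
      simp only at h1 h2
      have : q = q' := Fin.ext (by omega)
      exact ⟨by rw [this], rfl⟩)
    (fun x i => (i, x.1, x.2.1))
    (by
      rintro ⟨t, p, q⟩ ⟨t', p', q'⟩ i j ⟨f, h1, h1'⟩ ⟨f', h2, h2'⟩ h
      simp only [Prod.mk.injEq] at h
      obtain ⟨rfl, rfl, rfl⟩ := h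
      obtain rfl := h1.uniq h2
      simp only at h1' h2'
      have : q = q' := Fin.ext (by omega)
      exact ⟨by rw [this], rfl⟩)
  simpa using this

theorem famB2 (hG : Capped G) : HasFam G (fun i l => ∃ t v : Fin K, v < t ∧
      C2 G t v l ∧ ∃ m, IsM G t i m ∧ l.val / 2 ^ v.val = m.val / 2 ^ v.val + 1 ∧
        (m.val / 2 ^ v.val) % 2 = 0)
    (n * (K * K) + n * (K * K)) := by
  have := mkFam (G := G) (ι := Fin K × Fin K × Fin (n + 1)) (β := Fin n × Fin K × Fin K)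
    (γ := Fin n × Fin K × Fin K)
    (PA := fun x a => ∃ m, IsM G x.1 a m ∧ m.val / 2 ^ x.2.1.val = x.2.2.val)
    (PB := fun x b => x.2.1 < x.1 ∧ b.val / 2 ^ x.2.1.val = x.2.2.val + 1 ∧
      x.2.2.val % 2 = 0 ∧ C2 G x.1 x.2.1 b)
    (P := fun i l => ∃ t v : Fin K, v < t ∧
      C2 G t v l ∧ ∃ m, IsM G t i m ∧ l.val / 2 ^ v.val = m.val / 2 ^ v.val + 1 ∧
        (m.val / 2 ^ v.val) % 2 = 0)
    (by
      rintro ⟨t, v, r⟩ i l ⟨m, hm, hmr⟩ ⟨hvt, hr, hev, j, hjl, hj1, hj2⟩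
      simp only at hvt hr hev hj1 hj2 hm hmr
      have hvt' : v.val + 1 ≤ t.val := hvt
      have e1 : m.val / 2 ^ (v.val + 1) = l.val / 2 ^ (v.val + 1) :=
        par (by omega) (by omega)
      have e2 : m.val / 2 ^ t.val = l.val / 2 ^ t.val := blk_up hvt' e1
      have h1 : i < j := Fin.lt_def.2 (lt_of_blk (s := t.val) (by have := hm.1.1; omega))
      have h2 : j < m := Fin.lt_def.2 (lt_of_blk (s := v.val + 1) (by omega))
      have h3 : m < l := Fin.lt_def.2 (lt_of_blk (s := v.val) (by omega))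
      exact hG i j m l h1 h2 h3 hm.1.2.2 hjl)
    (by
      rintro i l ⟨t, v, hvt, hC, m, hm, hmr, hev⟩
      have hlt : m.val / 2 ^ v.val < n + 1 := by
        have : m.val / 2 ^ v.val ≤ m.val := Nat.div_le_self _ _
        have := m.isLt
        omega
      exact ⟨(t, v, ⟨m.val / 2 ^ v.val, hlt⟩), ⟨m, hm, rfl⟩, ⟨hvt, hmr, hev, hC⟩⟩)
    (fun x i => (i, x.1, x.2.1))
    (by
      rintro ⟨t, p, q⟩ ⟨t', p', q'⟩ i j ⟨f, h1, h1'⟩ ⟨f', h2, h2'⟩ h
      simp only [Prod.mk.injEq] at h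
      obtain ⟨rfl, rfl, rfl⟩ := h
      obtain rfl := h1.uniq h2
      simp only at h1' h2'
      have : q = q' := Fin.ext (by omega)
      exact ⟨by rw [this], rfl⟩)
    (fun x i => (i, x.1, x.2.1))
    (by
      rintro ⟨t, p, q⟩ ⟨t', p', q'⟩ i j ⟨_, h1, _, _⟩ ⟨_, h2, _, _⟩ h
      simp only [Prod.mk.injEq] at h
      obtain ⟨rfl, rfl, rfl⟩ := h
      simp only at h1 h2
      have : q = q' := Fin.ext (by omega)
      exact ⟨by rw [this], rfl⟩)
  simpa using this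

/-- for fixed `i`, `p` at most one level is left after excluding `C1` -/
theorem level_unique1 {t t' p : ℕ} {i m m' : Fin n} (hp : p < t) (hp' : p < t')
    (hm : Cand G t i m) (hm' : Cand G t' i m') (h : ¬ C1 G t p i) (h' : ¬ C1 G t' p i) :
    t = t' := by
  have key : ∀ {t t' : ℕ} {m : Fin n}, p < t → Cand G t i m → ¬ C1 G t' p i → ¬ t < t' := by
    intro t t' m hp hm h' hlt
    apply h'
    refine ⟨m, hm.2.2, ?_, ?_⟩
    · exact blk_lt (s := p + 1) (t := t) (by omega) (by have := hm.1; omega)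
    · exact (blk_up (s := t + 1) (by omega) (par hm.1 hm.2.1)).symm
  have h1 := key hp hm h'
  have h2 := key hp' hm' h
  omega

theorem level_unique2 {t t' v : ℕ} {l f f' : Fin n} (hp : v < t) (hp' : v < t')
    (hm : Cand G t f l) (hm' : Cand G t' f' l) (h : ¬ C2 G t v l) (h' : ¬ C2 G t' v l) :
    t = t' := by
  have key : ∀ {t t' : ℕ} {m : Fin n}, v < t → Cand G t m l → ¬ C2 G t' v l → ¬ t < t' := by
    intro t t' m hp hm h' hlt
    apply h'
    refine ⟨m, hm.2.2, ?_, ?_⟩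
    · exact blk_lt (s := v + 1) (t := t) (by omega) (by have := hm.1; omega)
    · exact (blk_up (s := t + 1) (by omega) (par hm.1 hm.2.1))
  have h1 := key hp hm h'
  have h2 := key hp' hm' h
  omega

theorem famB3 (hG : Capped G) : HasFam G (fun i l => ∃ t p v : Fin K, p < t ∧ v < t ∧
      ¬ C1 G t p i ∧ ¬ C2 G t v l ∧
      (∃ f, IsF G t l f ∧ f.val / 2 ^ p.val = i.val / 2 ^ p.val + 1 ∧
        (i.val / 2 ^ p.val) % 2 = 0) ∧
      ∃ m, IsM G t i m ∧ l.val / 2 ^ v.val = m.val / 2 ^ v.val + 1 ∧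
        (m.val / 2 ^ v.val) % 2 = 0)
    (n * (K * K) + n * (K * K)) := by
  have := mkFam (G := G) (ι := Fin K × Fin K × Fin K × Fin (n + 1) × Fin (n + 1))
    (β := Fin n × Fin K × Fin K) (γ := Fin n × Fin K × Fin K)
    (PA := fun x i => x.2.1 < x.1 ∧ x.2.2.1 < x.1 ∧
      i.val / 2 ^ x.2.1.val + 1 = x.2.2.2.1.val ∧ x.2.2.2.1.val % 2 = 1 ∧
      ¬ C1 G x.1 x.2.1 i ∧ ∃ m, IsM G x.1 i m ∧ m.val / 2 ^ x.2.2.1.val = x.2.2.2.2.val)
    (PB := fun x l => x.2.1 < x.1 ∧ x.2.2.1 < x.1 ∧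
      l.val / 2 ^ x.2.2.1.val = x.2.2.2.2.val + 1 ∧ x.2.2.2.2.val % 2 = 0 ∧
      ¬ C2 G x.1 x.2.2.1 l ∧ ∃ f, IsF G x.1 l f ∧ f.val / 2 ^ x.2.1.val = x.2.2.2.1.val)
    (P := fun i l => ∃ t p v : Fin K, p < t ∧ v < t ∧
      ¬ C1 G t p i ∧ ¬ C2 G t v l ∧
      (∃ f, IsF G t l f ∧ f.val / 2 ^ p.val = i.val / 2 ^ p.val + 1 ∧
        (i.val / 2 ^ p.val) % 2 = 0) ∧
      ∃ m, IsM G t i m ∧ l.val / 2 ^ v.val = m.val / 2 ^ v.val + 1 ∧
        (m.val / 2 ^ v.val) % 2 = 0)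
    (by
      rintro ⟨t, p, v, q, r⟩ i l ⟨hpt, hvt, hq, hodd, _, m, hm, hmr⟩
        ⟨_, _, hr, hev, _, f, hf, hfq⟩
      simp only at hpt hvt hq hodd hm hmr hr hev hf hfq
      have hpt' : p.val + 1 ≤ t.val := hpt
      have e1 : i.val / 2 ^ (p.val + 1) = f.val / 2 ^ (p.val + 1) :=
        par (by omega) (by omega)
      have e2 : i.val / 2 ^ t.val = f.val / 2 ^ t.val := blk_up hpt' e1
      have h1 : i < f := Fin.lt_def.2 (lt_of_blk (s := p.val) (by omega))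
      have h2 : f < m := Fin.lt_def.2 (lt_of_blk (s := t.val) (by have := hm.1.1; omega))
      have h3 : m < l := Fin.lt_def.2 (lt_of_blk (s := v.val) (by omega))
      exact hG i f m l h1 h2 h3 hm.1.2.2 hf.1.2.2)
    (by
      rintro i l ⟨t, p, v, hpt, hvt, hC1, hC2, ⟨f, hf, hfq, hev⟩, ⟨m, hm, hmr, hev'⟩⟩
      have hlt1 : i.val / 2 ^ p.val + 1 < n + 1 := by
        have : i.val / 2 ^ p.val ≤ i.val := Nat.div_le_self _ _
        have := i.isLt
        omega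
      have hlt2 : m.val / 2 ^ v.val < n + 1 := by
        have : m.val / 2 ^ v.val ≤ m.val := Nat.div_le_self _ _
        have := m.isLt
        omega
      exact ⟨(t, p, v, ⟨i.val / 2 ^ p.val + 1, hlt1⟩, ⟨m.val / 2 ^ v.val, hlt2⟩),
        ⟨hpt, hvt, rfl, by simp only; omega, hC1, m, hm, rfl⟩,
        ⟨hpt, hvt, hmr, hev', hC2, f, hf, hfq⟩⟩)
    (fun x i => (i, x.2.1, x.2.2.1))
    (by
      rintro ⟨t, p, v, q, r⟩ ⟨t', p', v', q', r'⟩ i j ⟨hp, _, hq, _, hC, m, hm, hmr⟩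
        ⟨hp', _, hq', _, hC', m', hm', hmr'⟩ h
      simp only [Prod.mk.injEq] at h
      obtain ⟨rfl, rfl, rfl⟩ := h
      simp only at hp hq hC hm hmr hp' hq' hC' hm' hmr'
      have ht : t = t' := Fin.ext (level_unique1 (Fin.lt_def.1 hp) (Fin.lt_def.1 hp')
        hm.1 hm'.1 hC hC')
      subst ht
      obtain rfl := hm.uniq hm'
      have e1 : q = q' := Fin.ext (by omega)
      have e2 : r = r' := Fin.ext (by omega)
      exact ⟨by rw [e1, e2], rfl⟩)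
    (fun x i => (i, x.2.1, x.2.2.1))
    (by
      rintro ⟨t, p, v, q, r⟩ ⟨t', p', v', q', r'⟩ i j ⟨_, hp, hq, _, hC, m, hm, hmr⟩
        ⟨_, hp', hq', _, hC', m', hm', hmr'⟩ h
      simp only [Prod.mk.injEq] at h
      obtain ⟨rfl, rfl, rfl⟩ := h
      simp only at hp hq hC hm hmr hp' hq' hC' hm' hmr'
      have ht : t = t' := Fin.ext (level_unique2 (Fin.lt_def.1 hp) (Fin.lt_def.1 hp')
        hm.1 hm'.1 hC hC')
      subst ht
      obtain rfl := hm.uniq hm'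
      have e1 : q = q' := Fin.ext (by omega)
      have e2 : r = r' := Fin.ext (by omega)
      exact ⟨by rw [e1, e2], rfl⟩)
  simpa using this

theorem cover_all (hK : n ≤ 2 ^ K) {i l : Fin n} (hil : i < l) (hadj : G.Adj i l) :
    ((((∃ t : Fin K, IsM G t i l) ∨ (∃ t : Fin K, IsF G t l i)) ∨
    (∃ t p : Fin K, p < t ∧
      C1 G t p i ∧ ∃ f, IsF G t l f ∧ f.val / 2 ^ p.val = i.val / 2 ^ p.val + 1 ∧
        (i.val / 2 ^ p.val) % 2 = 0)) ∨
    (∃ t v : Fin K, v < t ∧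
      C2 G t v l ∧ ∃ m, IsM G t i m ∧ l.val / 2 ^ v.val = m.val / 2 ^ v.val + 1 ∧
        (m.val / 2 ^ v.val) % 2 = 0)) ∨
    (∃ t p v : Fin K, p < t ∧ v < t ∧
      ¬ C1 G t p i ∧ ¬ C2 G t v l ∧
      (∃ f, IsF G t l f ∧ f.val / 2 ^ p.val = i.val / 2 ^ p.val + 1 ∧
        (i.val / 2 ^ p.val) % 2 = 0) ∧
      ∃ m, IsM G t i m ∧ l.val / 2 ^ v.val = m.val / 2 ^ v.val + 1 ∧
        (m.val / 2 ^ v.val) % 2 = 0) := by
  have z : ∀ a : Fin n, a.val / 2 ^ K = 0 := fun a =>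
    Nat.div_eq_of_lt (lt_of_lt_of_le a.isLt hK)
  obtain ⟨t, ht, h1, h2⟩ := sep K i.val l.val (Fin.lt_def.1 hil) (by rw [z, z])
  have hc : Cand G t i l := ⟨h1, h2, hadj⟩
  obtain ⟨m, hm⟩ := exM hc
  obtain ⟨f, hf⟩ := exF hc
  have hml : m ≤ l := hm.2 _ hc
  have hif : i ≤ f := hf.2 _ hc
  rcases hml.eq_or_lt with rfl | hml
  · exact Or.inl (Or.inl (Or.inl (Or.inl ⟨⟨t, ht⟩, hm⟩)))
  rcases hif.eq_or_lt with rfl | hif
  · exact Or.inl (Or.inl (Or.inl (Or.inr ⟨⟨t, ht⟩, hf⟩)))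
  obtain ⟨p, hp, hp1, hp2⟩ := sep t i.val f.val (Fin.lt_def.1 hif)
    (by have := hf.1.1; omega)
  obtain ⟨v, hv, hv1, hv2⟩ := sep t m.val l.val (Fin.lt_def.1 hml)
    (by have := hm.1.1; omega)
  by_cases hC1 : C1 G t p i
  · exact Or.inl (Or.inl (Or.inr ⟨⟨t, ht⟩, ⟨p, by omega⟩, Fin.lt_def.2 hp, hC1, f, hf, hp1, hp2⟩))
  by_cases hC2 : C2 G t v l
  · exact Or.inl (Or.inr ⟨⟨t, ht⟩, ⟨v, by omega⟩, Fin.lt_def.2 hv, hC2, m, hm, hv1, hv2⟩)
  exact Or.inr ⟨⟨t, ht⟩, ⟨p, by omega⟩, ⟨v, by omega⟩, Fin.lt_def.2 hp, Fin.lt_def.2 hv, hC1, hC2,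
    ⟨f, hf, hp1, hp2⟩, ⟨m, hm, hv1, hv2⟩⟩

/-- turn a family into an honest biclique cover -/
theorem toCover {N : ℕ} (h : HasFam G (fun i l => i < l ∧ G.Adj i l) N) :
    ∃ (m : ℕ) (A B : Fin m → Finset (Fin n)), IsBicliqueCover G A B ∧
      ∑ t, ((A t).card + (B t).card) ≤ N := by
  classical
  obtain ⟨ι, _, A, B, h1, h2, h3⟩ := h
  let κ := {t : ι // (A t).Nonempty ∧ (B t).Nonempty}
  let e : Fin (Fintype.card κ) ≃ κ := (Fintype.equivFin κ).symm
  refine ⟨Fintype.card κ, fun s => A (e s).1, fun s => B (e s).1, ⟨?_, ?_⟩, ?_⟩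
  · intro s
    refine ⟨(e s).2.1, (e s).2.2, ?_, h1 _⟩
    rw [Finset.disjoint_left]
    intro a ha hb
    exact G.loopless.irrefl a (h1 _ a ha a hb)
  · have key : ∀ x y, x < y → G.Adj x y → ∃ s, x ∈ A (e s).1 ∧ y ∈ B (e s).1 := by
      intro x y hxy hadj
      obtain ⟨t, ht1, ht2⟩ := h2 x y ⟨hxy, hadj⟩
      refine ⟨e.symm ⟨t, ⟨x, ht1⟩, ⟨y, ht2⟩⟩, ?_⟩
      rw [Equiv.apply_symm_apply]
      exact ⟨ht1, ht2⟩
    intro x y hadj
    rcases lt_or_gt_of_ne hadj.ne with hxy | hxy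
    · obtain ⟨s, hs⟩ := key x y hxy hadj
      exact ⟨s, Or.inl hs⟩
    · obtain ⟨s, hs⟩ := key y x hxy hadj.symm
      exact ⟨s, Or.inr hs⟩
  · refine le_trans ?_ h3
    rw [Equiv.sum_comp e (fun t : κ => ((A t.1).card + (B t.1).card))]
    rw [← Finset.sum_subtype (univ.filter fun t : ι => (A t).Nonempty ∧ (B t).Nonempty)
      (by simp) (fun t => ((A t).card + (B t).card))]
    exact Finset.sum_le_sum_of_subset (Finset.filter_subset _ _)

theorem exists_cover (hG : Capped G) (hK : n ≤ 2 ^ K) :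
    ∃ (m : ℕ) (A B : Fin m → Finset (Fin n)), IsBicliqueCover G A B ∧
      ∑ t, ((A t).card + (B t).card) ≤ 4 * (n * K) + 6 * (n * (K * K)) := by
  have h := ((((famS1 (G := G) K).union (famS2 (G := G) K)).union
    (famB1 K hG)).union (famB2 K hG)).union (famB3 K hG)
  apply toCover
  obtain ⟨ι, hι, A, B, h1, h2, h3⟩ := h
  refine ⟨ι, hι, A, B, h1, ?_, ?_⟩
  · rintro i l ⟨hil, hadj⟩
    exact h2 i l (cover_all K hK hil hadj)
  · refine h3.trans (le_of_eq ?_)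
    ring

end

/-- **Main theorem.** There is an absolute constant `C` such that every capped ordered graph on
`n ≥ 2` vertices has a biclique cover of total size at most `C · n · (log n)²`. -/
theorem result : ∃ C : ℝ, ∀ n : ℕ, 2 ≤ n → ∀ G : SimpleGraph (Fin n), Capped G →
    ∃ (m : ℕ) (A B : Fin m → Finset (Fin n)), IsBicliqueCover G A B ∧
      ((∑ t, ((A t).card + (B t).card) : ℕ) : ℝ) ≤ C * n * (Real.log n) ^ 2 := by
  refine ⟨100, fun n hn G hG => ?_⟩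
  obtain ⟨m, A, B, hc, hle⟩ := exists_cover (Nat.clog 2 n) hG (Nat.le_pow_clog (by norm_num) n)
  refine ⟨m, A, B, hc, ?_⟩
  set K := Nat.clog 2 n with hKdef
  have hn0 : (0 : ℝ) < n := by exact_mod_cast (by omega : 0 < n)
  have hn2 : (2 : ℝ) ≤ n := by exact_mod_cast hn
  have hlog2 : (0.6931471803 : ℝ) < Real.log 2 := Real.log_two_gt_d9
  have hlogn : Real.log 2 ≤ Real.log n := Real.log_le_log (by norm_num) hn2
  have hK1 : 1 ≤ K := Nat.clog_pos (by norm_num) hn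
  -- `2 ^ (K - 1) < n`
  have hpow : (2 : ℕ) ^ (K - 1) < n := Nat.pow_pred_clog_lt_self (by norm_num) (by omega)
  have h1 : ((K : ℝ) - 1) * Real.log 2 ≤ Real.log n := by
    have : Real.log ((2 : ℝ) ^ (K - 1)) ≤ Real.log n :=
      Real.log_le_log (by positivity) (by exact_mod_cast hpow.le)
    rw [Real.log_pow, Nat.cast_sub hK1] at this
    simpa using this
  have h2 : (K : ℝ) * Real.log 2 ≤ 2 * Real.log n := by nlinarith
  have h3 : (K : ℝ) * 0.69 ≤ 2 * Real.log n := by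
    have : (0 : ℝ) ≤ K := Nat.cast_nonneg K
    nlinarith
  have h4 : (K : ℝ) ≤ 3 * Real.log n := by
    have : (0 : ℝ) ≤ Real.log n := by linarith
    nlinarith
  have hK0 : (1 : ℝ) ≤ K := by exact_mod_cast hK1
  have h5 : ((∑ t, ((A t).card + (B t).card) : ℕ) : ℝ) ≤ 4 * (n * K) + 6 * (n * (K * K)) := by
    exact_mod_cast hle
  refine h5.trans ?_
  have h6 : (K : ℝ) ≤ K * K := by nlinarith
  have h7 : 4 * ((n : ℝ) * K) + 6 * (n * (K * K)) ≤ 10 * n * (K * K) := by nlinarith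
  refine h7.trans ?_
  have h8 : (K : ℝ) * K ≤ 10 * (Real.log n) ^ 2 := by
    have a1 : (K : ℝ) ≤ 2.9 * Real.log n := by nlinarith
    nlinarith
  nlinarith

end Pool.Agent.Results.MP_7bf775_co.CappedCovers
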